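import Pool.Agent.Work.MP_1c6e58_ag.CAT.Final

/-!
MP_1c6e58_ag. The conjectured bound for multiplicities (Catalan number `C_(n-2)`) is false for each
`n ≥ 9`, and there are minimal generators of ideals `I_k` beyond it.

`Itv` is the set of the intervals `[u,v]` of the Bruhat orders of the symmetric groups,
`SV u v` is the Schubert variety `X_v` in the chart `u U^- B / B` (origin `e_u`), `IsMult Z e` says
that `e` is the multiplicity of `Z` at the origin (through its Hilbert-Samuel function),
`MultAt A e` says that `e` is the multiplicity at `e_u` of `X_v`, `MinI k A` says that `A` is a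
minimal element of `I_k`.
-/

set_option autoImplicit false

namespace Pool.Agent.Results.MP_1c6e58_ag.BeyondCatalan

open Pool.Agent.SH

theorem result (n : ℕ) (hn : 9 ≤ n) :
    -- `v = n (n-1) 3 4 ... (n-2) 2 1`
    (∃ v : Equiv.Perm (Fin n),
      (∀ j : Fin n, (v j : ℕ) = if (j : ℕ) = 0 then n - 1 else if (j : ℕ) = 1 then n - 2 else
        if (j : ℕ) = n - 2 then 1 else if (j : ℕ) = n - 1 then 0 else j) ∧
      Br 1 v ∧ ∃ e, IsMult (SV 1 v) e ∧ catalan (n - 2) < e) ∧
    ∃ (k : ℕ) (B : Itv), catalan (n - 2) < k ∧ B.n ≤ n ∧ MinI k B ∧ MultAt B k :=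
  MP1c6e58.CAT.final n hn

end Pool.Agent.Results.MP_1c6e58_ag.BeyondCatalan
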