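import Pool.Agent.Work.MP_1c6e58_ag.COV.Assembly

/-!
MP_1c6e58_ag. The minimal elements `[u,v]` of `I_k` with `v` avoiding the pattern 3412: they are
members of the first family of generic singularities (family I, with `k ≤ binomial(a+b,a)`), or
they live in `S_n` with `n ≤ 4 k log2 k`; so all but finitely many of them are in family I.

`Itv` is the set of the intervals `[u,v]` of the Bruhat orders of the symmetric groups,
`Prec` is the partial order generated by interval pattern embeddings and by `[u,v] ≺ [u',v]`,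
`u' ≤ u`, `MultAt A e` says that `e` is the multiplicity at `e_u` of the Schubert variety `X_v`
(through its Hilbert-Samuel function in the chart `u U^- B / B`), `MinI k A` says that `A` is a
minimal element of `I_k`.
-/

set_option autoImplicit false

namespace Pool.Agent.Results.MP_1c6e58_ag.CovexillaryGenerators

open Pool.Agent.SH

/-- The permutation `v` avoids the pattern 3412. -/
def Avoids3412 {n : ℕ} (v : Equiv.Perm (Fin n)) : Prop :=
  ∀ a b c d : Fin n, a < b → b < c → c < d → ¬ (v c < v d ∧ v d < v a ∧ v a < v b)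

/-- `A` is the interval
`[(a+1) ... 1 (a+b+2) ... (a+2), (a+b+2) (a+1) ... 2 (a+b+1) ... (a+2) 1]`, `a, b > 0`
(positions and values are counted from `0`). -/
def FamilyI (a b : ℕ) (A : Itv) : Prop := 1 ≤ a ∧ 1 ≤ b ∧ A.n = a + b + 2 ∧
  (∀ j, (A.u j : ℕ) = if (j : ℕ) ≤ a then a - j else 2 * a + b + 2 - j) ∧
  (∀ j, (A.v j : ℕ) = if (j : ℕ) = 0 then a + b + 1 else if (j : ℕ) ≤ a then a + 1 - j else
    if (j : ℕ) ≤ a + b then 2 * a + b + 1 - j else 0)

theorem result :
    (∀ (k : ℕ) (A : Itv), MinI k A → Avoids3412 A.v →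
      (∃ a b, FamilyI a b A) ∨ A.n ≤ 4 * k * Nat.log 2 k) ∧
    (∀ a b : ℕ, 1 ≤ a → 1 ≤ b → ∃ A, FamilyI a b A ∧ Avoids3412 A.v ∧
      MultAt A (Nat.choose (a + b) a) ∧
      ∀ k, MinI k A ↔ 2 ≤ k ∧ k ≤ Nat.choose (a + b) a) ∧
    (∀ k : ℕ, {A : Itv | MinI k A ∧ Avoids3412 A.v ∧ ¬ ∃ a b, FamilyI a b A}.Finite) :=
  Pool.Agent.COV.cov_final

end Pool.Agent.Results.MP_1c6e58_ag.CovexillaryGenerators
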