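import Pool.Agent.Work.MP_1c6e58_ag.SH.Assembly

/-!
MP_1c6e58_ag. For `2 ^ r < k ≤ 2 ^ (r + 1)` all shuffles of `r + 1` intervals of the third family
of generic singularities are minimal elements of `I_k`; their number in `S_n` is at least
`(r + 1) ^ n / 2` for large `n`.

`Itv` is the set of the intervals `[u,v]` of the Bruhat orders of the symmetric groups,
`Prec` is the partial order generated by interval pattern embeddings and by `[u,v] ≺ [u',v]`,
`u' ≤ u`, `MultAt A e` says that `e` is the multiplicity at `e_u` of the Schubert variety `X_v`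
(through its Hilbert-Samuel function in the chart `u U^- B / B`), `MinI k A` says that `A` is a
minimal element of `I_k`. `IsIII m A` says that `A` is the interval
`[1 (m-1) ... 2 m, (m-1) m (m-2) ... 3 1 2]`, `m ≥ 4`; `RS r A` that `A` is a shuffle of `r`
intervals of this kind (of any sizes, positions shuffled in any way, disjoint blocks of values).
-/

set_option autoImplicit false

namespace Pool.Agent.Results.MP_1c6e58_ag.ShuffleGenerators

open Pool.Agent.SH

theorem result (r k : ℕ) (h1 : 2 ^ r < k) (h2 : k ≤ 2 ^ (r + 1)) :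
    (∀ A, RS (r + 1) A → MinI k A) ∧
    (∃ n0 : ℕ, ∀ n, n0 ≤ n → (r + 1) ^ n ≤ 2 * Nat.card {A : Itv // A.n = n ∧ RS (r + 1) A}) ∧
    (∃ n0 : ℕ, ∀ n, n0 ≤ n → (r + 1) ^ n ≤ 2 * Nat.card {A : Itv // A.n = n ∧ MinI k A}) :=
  shuffle_generators r k h1 h2

end Pool.Agent.Results.MP_1c6e58_ag.ShuffleGenerators
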