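import Pool.Agent.Work.MP_1c6e58_ag.SH.Assembly

/-!
MP_1c6e58_ag. Multiplicities of shuffles of Bruhat intervals, and the minimal elements of the
multiplicity ideals `I_k` among the shuffles, for every `k`.

`Itv` is the set of the intervals `[u,v]` of the Bruhat orders of the symmetric groups,
`Prec` is the partial order generated by interval pattern embeddings and by `[u,v] ≺ [u',v]`,
`u' ≤ u`, `MultAt A e` says that `e` is the multiplicity at `e_u` of the Schubert variety `X_v`
(through its Hilbert-Samuel function in the chart `u U^- B / B`), `MinI k A` says that `A` is a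
minimal element of `I_k`. `Shuf A1 A2 A` says that the positions `1, ..., n` are split in two
sets, at the first `u` and `v` take the values of `A1.u`, `A1.v` shifted by the size of `A2`, at
the second those of `A2.u`, `A2.v`.
-/

set_option autoImplicit false

namespace Pool.Agent.Results.MP_1c6e58_ag.ShuffleWindow

open Pool.Agent.SH

theorem result (A1 A2 A : Itv) (hA : Shuf A1 A2 A) (e1 e2 : ℕ)
    (h1 : MultAt A1 e1) (h2 : MultAt A2 e2) :
    MultAt A (e1 * e2) ∧
    (∀ B, Prec B A → ∃ B1 B2, Shuf B1 B2 B ∧ Prec B1 A1 ∧ Prec B2 A2) ∧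
    (∀ B1 B2, Prec B1 A1 → Prec B2 A2 → ∃ B, Shuf B1 B2 B ∧ Prec B A) ∧
    (∀ k : ℕ, MinI k A ↔ (k ≤ e1 * e2 ∧
      ∀ B1 B2, Prec B1 A1 → Prec B2 A2 → (B1 ≠ A1 ∨ B2 ≠ A2) →
        ∀ f1 f2, MultAt B1 f1 → MultAt B2 f2 → f1 * f2 < k)) :=
  shuffle_window A1 A2 A hA e1 e2 h1 h2

end Pool.Agent.Results.MP_1c6e58_ag.ShuffleWindow
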